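import Mathlib

/-!
# Every hypercyclic orbit is irregularly visiting

Let `x` be a vector with a dense orbit.  The points `T^n x` are pairwise distinct, so that around `T^n x`
there is a ball `B_n` which is visited only at times with mutual distances larger than any given `J_n`.
If `E` is a set of lower density `0` and upper density `1`, the union `U` of the `B_n`, `n ∈ E`, has
`#(N(x, U) ∩ [0, N]) ≤ #(E ∩ [0, N]) + (N + 1) / 4`, while `E ⊆ N(x, U)`.
-/

set_option autoImplicit false

open Filter Topology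

namespace Pool.Agent.Results.MP_60e8bf_an.EveryOrbitIrregular

/-- the visit set `{n ≥ 0 : T^n x ∈ U}` -/
def visits {𝕜 X : Type*} [RCLike 𝕜] [NormedAddCommGroup X] [NormedSpace 𝕜 X] (T : X →L[𝕜] X)
    (x : X) (U : Set X) : Set ℕ :=
  {n : ℕ | (T ^ n) x ∈ U}

/-- `#(A ∩ [0,N]) / (N+1)` -/
noncomputable def ratio (A : Set ℕ) (N : ℕ) : ℝ := ((A ∩ Set.Iic N).ncard : ℝ) / ((N : ℝ) + 1)

/-- lower density -/
noncomputable def lowerDens (A : Set ℕ) : ℝ := liminf (ratio A) atTop

/-- upper density -/
noncomputable def upperDens (A : Set ℕ) : ℝ := limsup (ratio A) atTop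

/-- `x` is frequently hypercyclic for `T` -/
def FreqHypercyclicVector {𝕜 X : Type*} [RCLike 𝕜] [NormedAddCommGroup X] [NormedSpace 𝕜 X]
    (T : X →L[𝕜] X) (x : X) : Prop :=
  ∀ U : Set X, IsOpen U → U.Nonempty → 0 < lowerDens (visits T x U)

/-- the orbit of `x` is irregularly visiting -/
def IrregularlyVisiting {𝕜 X : Type*} [RCLike 𝕜] [NormedAddCommGroup X] [NormedSpace 𝕜 X]
    (T : X →L[𝕜] X) (x : X) : Prop :=
  ∃ U : Set X, IsOpen U ∧ U.Nonempty ∧ lowerDens (visits T x U) < upperDens (visits T x U)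

theorem ratio_nonneg (A : Set ℕ) (N : ℕ) : 0 ≤ ratio A N := by unfold ratio; positivity

theorem ratio_le_one (A : Set ℕ) (N : ℕ) : ratio A N ≤ 1 := by
  unfold ratio
  rw [div_le_one (by positivity)]
  have h1 : (A ∩ Set.Iic N).ncard ≤ (Set.Iic N).ncard :=
    Set.ncard_le_ncard Set.inter_subset_right (Set.finite_Iic N)
  have h2 : (Set.Iic N).ncard = N + 1 := by
    rw [← Finset.coe_Iic, Set.ncard_coe_finset, Nat.card_Iic]
  rw [h2] at h1
  exact_mod_cast h1

/-- fast sequence -/
def a (j : ℕ) : ℕ := 2 ^ (2 ^ j)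

theorem a_succ (j : ℕ) : a (j + 1) = a j * a j := by
  unfold a
  rw [← pow_add]
  congr 1
  rw [pow_succ]; ring

theorem a_ge (j : ℕ) : j + 2 ≤ a j := by
  induction j with
  | zero => norm_num [a]
  | succ j ih =>
    rw [a_succ]
    nlinarith

theorem a_mono : Monotone a := monotone_nat_of_le_succ fun j => by
  rw [a_succ]
  have := a_ge j
  nlinarith

/-- the set of times -/
def E : Set ℕ := {n | ∃ j, a (2 * j) ≤ n ∧ n < a (2 * j + 1)}

/-- separated sets are small -/
theorem card_sep (g : ℕ) (hg : 0 < g) (F : Finset ℕ) (N : ℕ) (hF : ∀ m ∈ F, m ≤ N)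
    (hs : ∀ m ∈ F, ∀ m' ∈ F, m < m' → m + g ≤ m') : F.card * g ≤ N + g := by
  have hinj : Set.InjOn (fun m => m / g) (F : Set ℕ) := by
    intro m hm m' hm' h
    simp only at h
    by_contra hne
    rcases lt_or_gt_of_ne hne with h1 | h1
    · have h2 := hs m hm m' hm' h1
      have h3 : (m + g) / g ≤ m' / g := Nat.div_le_div_right h2
      rw [Nat.add_div_right _ hg] at h3
      omega
    · have h2 := hs m' hm' m hm h1
      have h3 : (m' + g) / g ≤ m / g := Nat.div_le_div_right h2
      rw [Nat.add_div_right _ hg] at h3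
      omega
  have hsub : F.image (fun m => m / g) ⊆ Finset.range (N / g + 1) := by
    intro k hk
    obtain ⟨m, hm, rfl⟩ := Finset.mem_image.1 hk
    rw [Finset.mem_range]
    have := Nat.div_le_div_right (c := g) (hF m hm)
    omega
  have h1 : F.card ≤ N / g + 1 := by
    rw [← Finset.card_image_of_injOn hinj]
    have := Finset.card_le_card hsub
    rwa [Finset.card_range] at this
  calc F.card * g ≤ (N / g + 1) * g := Nat.mul_le_mul_right g h1
    _ = N / g * g + g := by ring
    _ ≤ N + g := by have := Nat.div_mul_le_self N g; omega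

section

variable {𝕜 X : Type*} [RCLike 𝕜] [NormedAddCommGroup X] [NormedSpace 𝕜 X] (T : X →L[𝕜] X)

theorem exists_ball (y : X) (J : ℕ) (hy : ∀ j, 1 ≤ j → j ≤ J → (T ^ j) y ≠ y) :
    ∃ r : ℝ, 0 < r ∧ ∀ j, 1 ≤ j → j ≤ J → ∀ z ∈ Metric.ball y r, (T ^ j) z ∉ Metric.ball y r := by
  induction J with
  | zero => exact ⟨1, one_pos, fun j h1 h2 => by omega⟩
  | succ J ih =>
    obtain ⟨r, hr, h⟩ := ih fun j h1 h2 => hy j h1 (by omega)
    have hne := hy (J + 1) (by omega) le_rfl
    obtain ⟨U, V, hU, hV, hyU, hyV, hUV⟩ := t2_separation hne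
    -- `U ∋ T^(J+1) y`, `V ∋ y`
    have hc : (T ^ (J + 1)) ⁻¹' U ∩ V ∈ 𝓝 y :=
      Filter.inter_mem ((T ^ (J + 1)).continuous.continuousAt (hU.mem_nhds hyU)) (hV.mem_nhds hyV)
    obtain ⟨s, hs, hsub⟩ := Metric.mem_nhds_iff.1 hc
    refine ⟨min r s, lt_min hr hs, fun j h1 h2 z hz hz' => ?_⟩
    have hzr : z ∈ Metric.ball y r := Metric.ball_subset_ball (min_le_left _ _) hz
    have hzs : z ∈ Metric.ball y s := Metric.ball_subset_ball (min_le_right _ _) hz
    have hzr' := Metric.ball_subset_ball (min_le_left r s) hz'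
    have hzs' := Metric.ball_subset_ball (min_le_right r s) hz'
    rcases Nat.lt_or_ge j (J + 1) with h3 | h3
    · exact h j h1 (by omega) z hzr hzr'
    · have h4 : j = J + 1 := by omega
      subst h4
      exact Set.disjoint_left.1 hUV (hsub hzs).1 (hsub hzs').2

theorem orbit_inj [Nontrivial X] {x : X} (hx : Dense (Set.range fun n : ℕ => (T ^ n) x)) (n j : ℕ)
    (hj : 1 ≤ j) : (T ^ j) ((T ^ n) x) ≠ (T ^ n) x := by
  intro h
  -- the orbit is finite
  have h1 : ∀ k : ℕ, ∃ i, i < n + j ∧ (T ^ k) x = (T ^ i) x := by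
    intro k
    induction k using Nat.strong_induction_on with
    | _ k ih =>
      by_cases hk : k < n + j
      · exact ⟨k, hk, rfl⟩
      · obtain ⟨i, hi, he⟩ := ih (k - j) (by omega)
        refine ⟨i, hi, ?_⟩
        rw [← he]
        have e1 : k = (k - j - n) + (j + n) := by omega
        have e2 : k - j = (k - j - n) + n := by omega
        conv_lhs => rw [e1, pow_add, pow_add]
        conv_rhs => rw [e2, pow_add]
        rw [mul_apply_eq_comp, mul_apply_eq_comp, mul_apply_eq_comp, h]
  have hfin : (Set.range fun n : ℕ => (T ^ n) x).Finite := by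
    refine Set.Finite.subset ((Finset.range (n + j)).finite_toSet.image fun i => (T ^ i) x) ?_
    rintro _ ⟨k, rfl⟩
    obtain ⟨i, hi, he⟩ := h1 k
    exact ⟨i, by simpa using hi, he.symm⟩
  have huniv : (Set.univ : Set X).Finite := by
    have : closure (Set.range fun n : ℕ => (T ^ n) x) = Set.range fun n : ℕ => (T ^ n) x :=
      hfin.isClosed.closure_eq
    rw [← this, hx.closure_eq] at hfin
    exact hfin
  have hinf : Infinite X := Module.Free.infinite 𝕜 X
  exact Set.infinite_univ huniv

end

/-- Every hypercyclic orbit is irregularly visiting. -/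
theorem irregular {𝕜 X : Type*} [RCLike 𝕜] [NormedAddCommGroup X] [NormedSpace 𝕜 X] [Nontrivial X]
    (T : X →L[𝕜] X) (x : X) (hx : Dense (Set.range fun n : ℕ => (T ^ n) x)) :
    IrregularlyVisiting T x := by
  classical
  -- gap lengths
  set J : ℕ → ℕ := fun n => n + 4 * 2 ^ (n + 1) with hJ
  have hball : ∀ n : ℕ, ∃ r : ℝ, 0 < r ∧ ∀ j, 1 ≤ j → j ≤ J n →
      ∀ z ∈ Metric.ball ((T ^ n) x) r, (T ^ j) z ∉ Metric.ball ((T ^ n) x) r := fun n =>
    exists_ball T ((T ^ n) x) (J n) fun j h1 _ => orbit_inj T hx n j h1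
  choose r hr0 hr using hball
  set U : Set X := ⋃ n ∈ E, Metric.ball ((T ^ n) x) (r n) with hU
  have hEsub : E ⊆ visits T x U := fun n hn =>
    Set.mem_biUnion hn (Metric.mem_ball_self (hr0 n))
  -- separation of the visits to one ball
  have hsep : ∀ n m m' : ℕ, (T ^ m) x ∈ Metric.ball ((T ^ n) x) (r n) →
      (T ^ m') x ∈ Metric.ball ((T ^ n) x) (r n) → m < m' → m + (J n + 1) ≤ m' := by
    intro n m m' hm hm' hlt
    by_contra hcon
    have h1 : (T ^ (m' - m)) ((T ^ m) x) = (T ^ m') x := by
      rw [← mul_apply_eq_comp, ← pow_add, Nat.sub_add_cancel hlt.le]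
    refine hr n (m' - m) (by omega) (by omega) _ hm ?_
    rw [h1]
    exact hm'
  -- the count
  have hcount : ∀ N : ℕ, ((visits T x U ∩ Set.Iic N).ncard : ℝ) ≤
      ((E ∩ Set.Iic N).ncard : ℝ) + ((N : ℝ) + 1) / 4 := by
    intro N
    let W : ℕ → Finset ℕ := fun n => (Finset.range (N + 1)).filter fun m =>
      m ≠ n ∧ (T ^ m) x ∈ Metric.ball ((T ^ n) x) (r n)
    have hWcard : ∀ n ≤ N, ((W n).card : ℝ) ≤ ((N : ℝ) + 1) * (1 / 2) ^ (n + 1) / 4 := by
      intro n hn
      have h1 := card_sep (J n + 1) (by omega) (insert n (W n)) N (by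
        intro m hm
        rcases Finset.mem_insert.1 hm with h | h
        · omega
        · have := Finset.mem_range.1 (Finset.mem_filter.1 h).1
          omega) (by
        have hmem : ∀ m ∈ insert n (W n), (T ^ m) x ∈ Metric.ball ((T ^ n) x) (r n) := by
          intro m hm
          rcases Finset.mem_insert.1 hm with h | h
          · subst h; exact Metric.mem_ball_self (hr0 m)
          · exact (Finset.mem_filter.1 h).2.2
        intro m hm m' hm' hlt
        exact hsep n m m' (hmem m hm) (hmem m' hm') hlt)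
      rw [Finset.card_insert_of_notMem (fun h => (Finset.mem_filter.1 h).2.1 rfl)] at h1
      have h2 : (W n).card * (J n + 1) ≤ N := by
        have : ((W n).card + 1) * (J n + 1) = (W n).card * (J n + 1) + (J n + 1) := by ring
        omega
      have h3 : (W n).card * (4 * 2 ^ (n + 1)) ≤ N :=
        (Nat.mul_le_mul_left _ (by simp only [hJ]; omega)).trans h2
      have h4 : ((W n).card : ℝ) * (4 * 2 ^ (n + 1)) ≤ N := by exact_mod_cast h3
      rw [one_div, inv_pow, ← div_eq_mul_inv, div_div, le_div_iff₀ (by positivity)]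
      have : (2 : ℝ) ^ (n + 1) * 4 = 4 * 2 ^ (n + 1) := by ring
      rw [this]
      linarith
    have hsub : visits T x U ∩ Set.Iic N ⊆
        (E ∩ Set.Iic N) ∪ ((Finset.range (N + 1)).biUnion W : Finset ℕ) := by
      rintro m ⟨hm, hmN⟩
      rw [Set.mem_Iic] at hmN
      obtain ⟨n, hn, hmn⟩ := Set.mem_iUnion₂.1 hm
      by_cases hmn' : m = n
      · subst hmn'
        exact Or.inl ⟨hn, hmN⟩
      · right
        have hnN : n ≤ N := by
          by_contra hcon
          have := hsep n m n hmn (Metric.mem_ball_self (hr0 n)) (by omega)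
          simp only [hJ] at this
          omega
        rw [Finset.mem_coe, Finset.mem_biUnion]
        exact ⟨n, Finset.mem_range.2 (by omega),
          Finset.mem_filter.2 ⟨Finset.mem_range.2 (by omega), hmn', hmn⟩⟩
    have hfin : ((E ∩ Set.Iic N) ∪ ((Finset.range (N + 1)).biUnion W : Finset ℕ) : Set ℕ).Finite :=
      ((Set.finite_Iic N).subset Set.inter_subset_right).union (Finset.finite_toSet _)
    have h1 := (Set.ncard_le_ncard hsub hfin).trans (Set.ncard_union_le _ _)
    rw [Set.ncard_coe_finset] at h1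
    have h2 : (((Finset.range (N + 1)).biUnion W).card : ℝ) ≤ ((N : ℝ) + 1) / 4 := by
      have h3 : (((Finset.range (N + 1)).biUnion W).card : ℝ) ≤
          ∑ n ∈ Finset.range (N + 1), ((W n).card : ℝ) := by
        exact_mod_cast Finset.card_biUnion_le
      refine h3.trans ((Finset.sum_le_sum fun n hn => hWcard n (by
        have := Finset.mem_range.1 hn; omega)).trans ?_)
      have h4 : ∀ K : ℕ, ∑ n ∈ Finset.range K, ((N : ℝ) + 1) * (1 / 2) ^ (n + 1) / 4 =
          ((N : ℝ) + 1) / 4 * (1 - (1 / 2) ^ K) := by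
        intro K
        induction K with
        | zero => simp
        | succ K ih => rw [Finset.sum_range_succ, ih, pow_succ]; ring
      rw [h4]
      have h5 : (0 : ℝ) ≤ (1 / 2) ^ (N + 1) := by positivity
      have h6 : (0 : ℝ) ≤ ((N : ℝ) + 1) / 4 := by positivity
      nlinarith
    have h3 : ((visits T x U ∩ Set.Iic N).ncard : ℝ) ≤ ((E ∩ Set.Iic N).ncard : ℝ) +
        (((Finset.range (N + 1)).biUnion W).card : ℝ) := by exact_mod_cast h1
    linarith
  have hne : U.Nonempty := by
    refine ⟨(T ^ 2) x, Set.mem_biUnion (x := 2) ⟨0, ?_, ?_⟩ (Metric.mem_ball_self (hr0 2))⟩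
    · norm_num [a]
    · norm_num [a]
  refine ⟨U, isOpen_biUnion fun n _ => Metric.isOpen_ball, hne, ?_⟩
  -- lower density at most one half
  have hlow : lowerDens (visits T x U) ≤ 1 / 2 := by
    refine Filter.liminf_le_of_frequently_le ?_ ⟨0, ?_⟩
    · rw [Filter.frequently_atTop]
      intro n0
      refine ⟨a (2 * (n0 + 1)) - 1, ?_, ?_⟩
      · have := a_ge (2 * (n0 + 1)); omega
      · set M := a (2 * (n0 + 1)) with hM
        have hM1 : 4 ≤ M := by have := a_ge (2 * (n0 + 1)); omega
        have hMe : M = a (2 * n0 + 1) * a (2 * n0 + 1) := by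
          rw [hM, ← a_succ]; congr 1
        have hsub : E ∩ Set.Iic (M - 1) ⊆ Set.Iio (a (2 * n0 + 1)) := by
          rintro m ⟨⟨j, hj1, hj2⟩, hm⟩
          rw [Set.mem_Iic] at hm
          rw [Set.mem_Iio]
          have hj : j < n0 + 1 := by
            by_contra hcon
            have := a_mono (show 2 * (n0 + 1) ≤ 2 * j by omega)
            omega
          exact hj2.trans_le (a_mono (by omega))
        have h1 : (E ∩ Set.Iic (M - 1)).ncard ≤ a (2 * n0 + 1) := by
          refine (Set.ncard_le_ncard hsub (Set.finite_Iio _)).trans ?_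
          rw [← Finset.coe_Iio, Set.ncard_coe_finset, Nat.card_Iio]
        have h2 := hcount (M - 1)
        unfold ratio
        have hcast : ((M - 1 : ℕ) : ℝ) + 1 = M := by
          have : M - 1 + 1 = M := by omega
          exact_mod_cast this
        rw [hcast] at h2 ⊢
        have hMpos : (0 : ℝ) < M := by exact_mod_cast (by omega : 0 < M)
        rw [div_le_iff₀ hMpos]
        have h3 : ((E ∩ Set.Iic (M - 1)).ncard : ℝ) ≤ a (2 * n0 + 1) := by exact_mod_cast h1
        have h4 : (4 : ℝ) * a (2 * n0 + 1) ≤ M := by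
          have h5 : 4 ≤ a (2 * n0 + 1) := by
            have := a_mono (show 1 ≤ 2 * n0 + 1 by omega)
            have e : a 1 = 4 := by norm_num [a]
            omega
          have h6 : 4 * a (2 * n0 + 1) ≤ M := by rw [hMe]; exact Nat.mul_le_mul_right _ h5
          exact_mod_cast h6
        linarith
    · exact Filter.eventually_map.2 (Filter.Eventually.of_forall fun N => ratio_nonneg _ N)
  have hup : 3 / 4 ≤ upperDens (visits T x U) := by
    refine Filter.le_limsup_of_frequently_le ?_ ⟨1, ?_⟩
    · rw [Filter.frequently_atTop]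
      intro n0
      refine ⟨a (2 * (n0 + 1) + 1) - 1, ?_, ?_⟩
      · have := a_ge (2 * (n0 + 1) + 1); omega
      · set M := a (2 * (n0 + 1) + 1) with hM
        set K := a (2 * (n0 + 1)) with hK
        have hMe : M = K * K := by rw [hM, a_succ]
        have hK4 : 4 ≤ K := by have := a_ge (2 * (n0 + 1)); omega
        have hsub : Set.Ico K M ⊆ visits T x U ∩ Set.Iic (M - 1) := by
          intro m hm
          refine ⟨hEsub ⟨n0 + 1, hm.1, hm.2⟩, ?_⟩
          rw [Set.mem_Iic]
          have := hm.2
          omega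
        have h1 : M - K ≤ (visits T x U ∩ Set.Iic (M - 1)).ncard := by
          refine le_trans ?_ (Set.ncard_le_ncard hsub
            ((Set.finite_Iic _).subset Set.inter_subset_right))
          rw [← Finset.coe_Ico, Set.ncard_coe_finset, Nat.card_Ico]
        unfold ratio
        have hMK : 4 * K ≤ M := by rw [hMe]; exact Nat.mul_le_mul_right _ hK4
        have hcast : ((M - 1 : ℕ) : ℝ) + 1 = M := by
          have : M - 1 + 1 = M := by omega
          exact_mod_cast this
        rw [hcast]
        have hMpos : (0 : ℝ) < M := by exact_mod_cast (by omega : 0 < M)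
        rw [le_div_iff₀ hMpos]
        have h2 : (M : ℝ) ≤ ((visits T x U ∩ Set.Iic (M - 1)).ncard : ℝ) + K := by
          have : M ≤ (visits T x U ∩ Set.Iic (M - 1)).ncard + K := by omega
          exact_mod_cast this
        have h3 : (4 : ℝ) * K ≤ M := by exact_mod_cast hMK
        linarith
    · exact Filter.eventually_map.2 (Filter.Eventually.of_forall fun N => ratio_le_one _ N)
  linarith

theorem dense_of_fhc {𝕜 X : Type*} [RCLike 𝕜] [NormedAddCommGroup X] [NormedSpace 𝕜 X]
    (T : X →L[𝕜] X) (x : X) (hx : FreqHypercyclicVector T x) :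
    Dense (Set.range fun n : ℕ => (T ^ n) x) := by
  rw [dense_iff_inter_open]
  intro U hU hne
  have h := hx U hU hne
  by_contra hcon
  have h1 : visits T x U = ∅ := by
    ext n
    simp only [Set.mem_empty_iff_false, iff_false]
    intro hn
    exact hcon ⟨(T ^ n) x, hn, ⟨n, rfl⟩⟩
  rw [h1] at h
  unfold lowerDens ratio at h
  simp at h

/-- On a non-zero normed space (in particular on a non-zero separable Banach space) every hypercyclic
vector is irregularly visiting; hence every frequently hypercyclic operator has a frequently hypercyclic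
vector whose orbit is irregularly visiting (indeed all its frequently hypercyclic vectors are). -/
theorem result (𝕜 : Type) [RCLike 𝕜] (X : Type*) [NormedAddCommGroup X] [NormedSpace 𝕜 X]
    [Nontrivial X] (T : X →L[𝕜] X) :
    (∀ x : X, Dense (Set.range fun n : ℕ => (T ^ n) x) → IrregularlyVisiting T x) ∧
    ((∃ x : X, FreqHypercyclicVector T x) →
      ∃ x : X, FreqHypercyclicVector T x ∧ IrregularlyVisiting T x) :=
  ⟨fun x hx => irregular T x hx, fun ⟨x, hx⟩ => ⟨x, hx, irregular T x (dense_of_fhc T x hx)⟩⟩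

end Pool.Agent.Results.MP_60e8bf_an.EveryOrbitIrregular
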